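import Pool.Agent.Q59.TR.TopFin

/-!
# The weak monodromy conjecture for topological zeta functions: reduction to trilinear polynomials

Let `f ∈ ℂ[x_1, …, x_n]`. For `κ ≥ κ(f)` the polynomial `f(x) + y_1 z_1 + ⋯ + y_κ z_κ` becomes, by an
automorphism of the polynomial ring, a polynomial `G` of the form `∑ a_{ijk} x_i y_j z_k` with
`x_0 = y_0 = z_0 = 1`. The poles of the topological zeta functions and the classes of the roots of
the Bernstein-Sato polynomials modulo `ℤ` (the logarithms of the eigenvalues of the monodromy at the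
points of the zero set, by the theorems of Malgrange and Kashiwara) of `f` and `G` correspond to each
other (up to integers). So the monodromy conjecture for all polynomials is equivalent to the
conjecture for the trilinear ones.

The topological zeta function is defined as by Denef and Loeser, from the motivic zeta function
`Z_mot(T) = ∑_d [X_d] 𝕃 ^ (-n d) T ^ d` in `𝓜[[T]]`, `X_d` the set of the `d`-jets on which
`f` has the order `d` (`zetaG f Set.univ {a | a ≠ 0}`), `𝓜` the Grothendieck ring of complex varieties,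
localised at `𝕃`: `Z_top(s) = χ(Z_mot(𝕃 ^ (-s)))` for `s = 1, 2, 3, …`. For this, let `E` be a homomorphism
from `𝓜` to a domain `R` with `E(𝕃) ≠ 1`, such as the Hodge-Deligne polynomial `E(u, v)`, and `ε` a
homomorphism from `R` to `ℂ` with `ε(E(𝕃)) = 1`, such as `u, v ↦ 1`, so that `ε ∘ E` is the Euler
characteristic `χ` (`IsTopZeta`).

Method. The new variables are the words `w` in the letters `1, …, n` of length at most the degree of `f`;
the relations `l_w` are `V_{i w} - V_w c_i` and `c_j - x_j`. Modulo the relations `f` is linear in the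
words: `f + ∑ q_w l_w = λ`, and `λ + ∑ y_w l_w = f + ∑ (y_w + q_w) l_w` where `x, l` is a system of
coordinates. The relation of the classes of the jets of `f` and `f + y z` is from the starting library
(`Pool.Agent.Y229.MS`); it gives `χ(W) - Z_{f + y z}(s) = (χ(W) - Z_f(s + 1)) s (s + 2) / (s + 1) ^ 2`
(`W` the set of the origins). No resolution of singularities is used.
-/

set_option autoImplicit false

namespace Pool.Agent.Results.MP_a2a574_ag.TrilinearReduction

open MvPolynomial Pool.Agent.W375.MG Pool.Agent.W428.MOT Pool.Agent.H628R4.TP Pool.Agent.TH192.MU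

/-- The monodromy conjecture for `f`: for every pole `s₀` of the global topological zeta function of
`f` and every polynomial `b` with `b(s) f ^ s = P(s) f ^ (s + 1)`, `P(s)` a differential operator in the
Weyl algebra, polynomial in `s` (`IsBFunction`), in particular for the Bernstein-Sato polynomial, some
`s₀ + i`, `i ∈ ℤ`, is a root of `b`; by the theorems of Malgrange and Kashiwara, `exp(2 π i s₀)` is an
eigenvalue of the monodromy of `f`. -/
def WeakTop {R : Type} [CommRing R] (E : MK ℂ →+* R) (ε : R →+* ℂ) {n : ℕ}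
    (f : MvPolynomial (Fin n) ℂ) : Prop :=
  ∀ Z : RatFunc ℂ, IsTopZeta E ε (zetaG f Set.univ {a | a ≠ 0}) Z →
    ∀ s₀ : ℂ, Z.denom.eval s₀ = 0 → ∀ b : Polynomial ℂ, IsBFunction f b →
      ∃ i : ℤ, b.eval (s₀ + (i : ℂ)) = 0

/-- `f = ∑ a_{ijk} x_i y_j z_k` with `x_0 = y_0 = z_0 = 1`: the variables can be coloured with three
colours such that every monomial of `f` is of degree at most one in the variables of each colour. -/
def Trilinear {n : ℕ} (f : MvPolynomial (Fin n) ℂ) : Prop :=
  ∃ col : Fin n → Fin 3, ∀ w ∈ f.support, ∀ g : Fin 3,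
    ∑ i ∈ Finset.univ.filter (fun i => col i = g), w i ≤ 1

/-- **Reduction of the monodromy conjecture for topological zeta functions to trilinear
polynomials.** -/
theorem result (R : Type) [CommRing R] [IsDomain R] (E : MK ℂ →+* R) (ε : R →+* ℂ)
    (hε : ε (E ((Lu ℂ : (MK ℂ)ˣ) : MK ℂ)) = 1) (hE : E ((Lu ℂ : (MK ℂ)ˣ) : MK ℂ) ≠ 1) :
    (∀ (n : ℕ) (f : MvPolynomial (Fin n) ℂ), f.totalDegree ≠ 0 → WeakTop E ε f) ↔
    ∀ (n : ℕ) (f : MvPolynomial (Fin n) ℂ), f.totalDegree ≠ 0 → Trilinear f →
      WeakTop E ε f :=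
  ⟨fun h _ f hf _ => h _ f hf, fun h _ f hf Z hZ s₀ hs b hb => by
    obtain ⟨i, -, h2⟩ := Pool.Agent.Q59.TR.topG_transfer hε hE (I := Set.univ) (Or.inr rfl)
      (fun n f hf hT Z hZ s₀ hs b hb => by
        obtain ⟨i, hi⟩ := h n f hf hT Z hZ s₀ hs b hb
        exact ⟨i, Set.mem_univ _, hi⟩) f hf Z hZ s₀ hs b hb
    exact ⟨i, h2⟩⟩

end Pool.Agent.Results.MP_a2a574_ag.TrilinearReduction
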